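import Pool.Agent.MP_3b6db3_gt.H81.Up

/-!
A finite test for layers with coordinates in a real quadratic field.
-/

open Set

namespace Pool.Agent.MP_3b6db3_gt.H81

open Pool.Agent.MP_3b6db3_gt.H5

/-- The number `a + b √s`. -/
structure K where
  a : ℚ
  b : ℚ
  deriving DecidableEq

namespace K

/-- Sum. -/
def add (x y : K) : K := ⟨x.a + y.a, x.b + y.b⟩

/-- Difference. -/
def sub (x y : K) : K := ⟨x.a - y.a, x.b - y.b⟩

/-- Product. -/
def mul (s : ℕ) (x y : K) : K := ⟨x.a * y.a + s * (x.b * y.b), x.a * y.b + x.b * y.a⟩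

/-- Value. -/
noncomputable def ev (s : ℕ) (x : K) : ℝ := x.a + x.b * √s

/-- Positivity. -/
def pos (s : ℕ) (x : K) : Bool :=
  (decide (0 < x.a) && (decide (0 ≤ x.b) || decide (s * (x.b * x.b) < x.a * x.a))) ||
    (decide (0 < x.b) && decide (x.a * x.a < s * (x.b * x.b)))

/-- Strict order. -/
def lt (s : ℕ) (x y : K) : Bool := pos s (y.sub x)

/-- Order. -/
def le (s : ℕ) (x y : K) : Bool := lt s x y || decide (x = y)

variable {s : ℕ} {x y : K}

lemma ev_add : ev s (x.add y) = ev s x + ev s y := by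
  simp only [ev, add]
  push_cast
  ring

lemma ev_sub : ev s (x.sub y) = ev s x - ev s y := by
  simp only [ev, sub]
  push_cast
  ring

lemma ev_mul : ev s (mul s x y) = ev s x * ev s y := by
  simp only [ev, mul]
  push_cast
  linear_combination (-(x.b : ℝ) * y.b) * Real.mul_self_sqrt (Nat.cast_nonneg (α := ℝ) s)

lemma ev_rat (q : ℚ) : ev s ⟨q, 0⟩ = q := by simp [ev]

lemma of_pos (h : pos s x = true) : 0 < ev s x := by
  have h0 := Real.sqrt_nonneg (s : ℝ)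
  have h1 := Real.mul_self_sqrt (Nat.cast_nonneg (α := ℝ) s)
  simp only [pos, Bool.or_eq_true, Bool.and_eq_true, decide_eq_true_eq] at h
  unfold ev
  rcases h with ⟨a, b | b⟩ | ⟨a, b⟩
  · have a' : (0 : ℝ) < x.a := by exact_mod_cast a
    have b' : (0 : ℝ) ≤ x.b := by exact_mod_cast b
    positivity
  · have a' : (0 : ℝ) < x.a := by exact_mod_cast a
    have b' : (s * (x.b * x.b) : ℝ) < x.a * x.a := by exact_mod_cast b
    have := abs_lt_of_sq_lt_sq' (a := x.b * √s) (b := (x.a : ℝ)) (by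
      rw [mul_pow, Real.sq_sqrt (Nat.cast_nonneg s)]; linarith) a'.le
    linarith [this.1]
  · have a' : (0 : ℝ) < x.b := by exact_mod_cast a
    have b' : (x.a * x.a : ℝ) < s * (x.b * x.b) := by exact_mod_cast b
    have := abs_lt_of_sq_lt_sq' (a := (x.a : ℝ)) (b := x.b * √s) (by
      rw [mul_pow, Real.sq_sqrt (Nat.cast_nonneg s)]; linarith) (by positivity)
    linarith [this.1]

lemma of_lt (h : lt s x y = true) : ev s x < ev s y := by
  have := of_pos h
  rwa [ev_sub, sub_pos] at this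

lemma of_le (h : le s x y = true) : ev s x ≤ ev s y := by
  simp only [le, Bool.or_eq_true, decide_eq_true_eq] at h
  exact h.elim (fun h => (of_lt h).le) fun h => h ▸ le_rfl

end K

open K

/-- A disc. -/
structure C where
  x : K
  y : K
  r : K

/-- A disc of the list and a translation. -/
abbrev Vx := ℕ × ℤ

section

variable (s : ℕ) (L : List C)

/-- The translated disc. -/
def get (v : Vx) : C :=
  ⟨(L.getD v.1 ⟨⟨0, 0⟩, ⟨0, 0⟩, ⟨0, 0⟩⟩).x.add ⟨v.2, 0⟩, (L.getD v.1 ⟨⟨0, 0⟩, ⟨0, 0⟩, ⟨0, 0⟩⟩).y,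
    (L.getD v.1 ⟨⟨0, 0⟩, ⟨0, 0⟩, ⟨0, 0⟩⟩).r⟩

/-- The centre. -/
noncomputable def C.cen (c : C) : ℂ := ⟨ev s c.x, ev s c.y⟩

/-- The disc. -/
noncomputable def dsc (v : Vx) : Disc := ((get L v).cen s, ev s (get L v).r)

/-- All discs. -/
def All : Set Disc := {d | ∃ v : Vx, v.1 < L.length ∧ d = dsc s L v}

/-- Squared distance. -/
def d2 (c e : C) : K :=
  (mul s (c.x.sub e.x) (c.x.sub e.x)).add (mul s (c.y.sub e.y) (c.y.sub e.y))

/-- Squared sum of the radii. -/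
def r2 (c e : C) : K := mul s (c.r.add e.r) (c.r.add e.r)

/-- Oriented area. -/
def crK (a b c : C) : K :=
  (mul s (b.x.sub a.x) (c.y.sub a.y)).sub (mul s (b.y.sub a.y) (c.x.sub a.x))

/-- The discs of the list lie in a fundamental domain and do not overlap. -/
def base (h : K) : Bool :=
  (List.range L.length).all fun i =>
    le s ⟨0, 0⟩ (get L (i, 0)).x && le s (get L (i, 0)).x ⟨1, 0⟩ && le s ⟨0, 0⟩ (get L (i, 0)).y &&
    le s (get L (i, 0)).y h && pos s (get L (i, 0)).r && le s (get L (i, 0)).r ⟨1 / 2, 0⟩ &&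
    (List.range L.length).all fun j => [-1, 0, 1].all fun n : ℤ =>
      decide (i = j ∧ n = 0) ||
        le s (r2 s (get L (i, 0)) (get L (j, n))) (d2 s (get L (i, 0)) (get L (j, n)))

/-- The centre of `z` is outside the triangle. -/
def away (a b c z : C) : Bool :=
  lt s z.x a.x || lt s c.x z.x || lt s (mul s (crK s a b z) (crK s a b c)) ⟨0, 0⟩ ||
    lt s (mul s (crK s b c z) (crK s a b c)) ⟨0, 0⟩ ||
    lt s (mul s (crK s c a z) (crK s a b c)) ⟨0, 0⟩

/-- An empty triangle of mutually tangent discs, ordered from left to right. -/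
def okT (a b c : Vx) : Bool :=
  decide (a.1 < L.length) && decide (b.1 < L.length) && decide (c.1 < L.length) &&
  decide (d2 s (get L a) (get L b) = r2 s (get L a) (get L b)) &&
  decide (d2 s (get L b) (get L c) = r2 s (get L b) (get L c)) &&
  decide (d2 s (get L c) (get L a) = r2 s (get L c) (get L a)) &&
  le s ⟨-1, 0⟩ (get L a).x && le s (get L a).x (get L b).x && le s (get L b).x (get L c).x &&
  le s (get L c).x ⟨2, 0⟩ &&
  (List.range L.length).all fun j => [-2, -1, 0, 1, 2].all fun n : ℤ =>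
    decide ((j, n) = a) || decide ((j, n) = b) || decide ((j, n) = c) ||
      away s (get L a) (get L b) (get L c) (get L (j, n))

/-- An edge up to translation. -/
def edge (a b : Vx) : ℕ × Vx := (a.1, b.1, b.2 - a.2)

/-- The edge was treated, or it is vertical. -/
def has (E : List (ℕ × Vx)) (a b : Vx) : Bool :=
  decide (edge a b ∈ E) || decide ((get L a).x = (get L b).x)

/-- Going through the triangles. -/
def run : List (Vx × Vx × Vx) → List (ℕ × Vx) → Bool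
  | [], E => decide ((0, 0, 1) ∈ E)
  | t :: T, E => okT s L t.1 t.2.1 t.2.2 &&
    ((lt s (crK s (get L t.1) (get L t.2.1) (get L t.2.2)) ⟨0, 0⟩ && has L E t.1 t.2.1 &&
        has L E t.2.1 t.2.2 && run T (edge t.1 t.2.2 :: E)) ||
      (pos s (crK s (get L t.1) (get L t.2.1) (get L t.2.2)) && has L E t.1 t.2.2 &&
        run T (edge t.1 t.2.1 :: edge t.2.1 t.2.2 :: E)))

end

variable {s : ℕ} {L : List C}

lemma ev_d2 (c e : C) : ev s (d2 s c e) = dist (c.cen s) (e.cen s) ^ 2 := by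
  simp only [d2, ev_add, ev_mul, ev_sub, dist_sq, C.cen]
  ring

lemma ev_r2 (c e : C) : ev s (r2 s c e) = (ev s c.r + ev s e.r) ^ 2 := by
  simp only [r2, ev_add, ev_mul]
  ring

lemma ev_cr (a b c : C) : ev s (crK s a b c) = cr (a.cen s) (b.cen s) (c.cen s) := by
  simp only [crK, ev_mul, ev_sub, cr, C.cen]

lemma cen_add (i : ℕ) (m n : ℤ) : (get L (i, m + n)).cen s = (get L (i, m)).cen s + n :=
  Complex.ext (by simp [get, C.cen, ev_add, ev_rat]; ring) (by simp [get, C.cen])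

lemma dsc_add (i : ℕ) (m n : ℤ) :
    dsc s L (i, m + n) = ((dsc s L (i, m)).1 + n, (dsc s L (i, m)).2) :=
  Prod.ext (cen_add i m n) rfl

lemma int_per (n : ℤ) : (n : ℂ) ∈ Per (All s L) := by
  have key : ∀ n : ℤ, ∀ d ∈ All s L, (d.1 + n, d.2) ∈ All s L := by
    rintro n _ ⟨v, hv, rfl⟩
    exact ⟨(v.1, v.2 + n), hv, (dsc_add _ _ _).symm⟩
  exact fun d => ⟨fun h => by simpa using key (-n) _ h, key n d⟩

lemma re_eq (v : Vx) : (dsc s L v).1.re = ev s (get L (v.1, 0)).x + v.2 := by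
  simp [dsc, get, C.cen, ev_add, ev_rat]

section

variable {h : K} (hb : base s L h = true)

include hb

lemma base_one {i : ℕ} (hi : i < L.length) : (0 ≤ ev s (get L (i, 0)).x ∧
    ev s (get L (i, 0)).x ≤ 1) ∧ (0 ≤ ev s (get L (i, 0)).y ∧ ev s (get L (i, 0)).y ≤ ev s h) ∧
    0 < ev s (get L (i, 0)).r ∧ ev s (get L (i, 0)).r ≤ 1 / 2 := by
  simp only [base, List.all_eq_true, List.mem_range, Bool.and_eq_true] at hb
  obtain ⟨⟨⟨⟨⟨⟨h1, h2⟩, h3⟩, h4⟩, h5⟩, h6⟩, -⟩ := hb i hi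
  exact ⟨⟨by simpa [ev_rat] using of_le h1, by simpa [ev_rat] using of_le h2⟩,
    ⟨by simpa [ev_rat] using of_le h3, of_le h4⟩, of_pos h5, by simpa [ev_rat] using of_le h6⟩

lemma base_pk : Pk (All s L) := by
  refine ⟨?_, ((finite_lt_nat L.length).image fun i => ev s (get L (i, 0)).r).subset ?_, ?_⟩
  · rintro _ ⟨v, hv, rfl⟩
    exact (base_one hb hv).2.2.1
  · rintro _ ⟨_, ⟨v, hv, rfl⟩, rfl⟩
    exact ⟨v.1, hv, rfl⟩
  · rintro _ ⟨⟨i, m⟩, hi, rfl⟩ _ ⟨⟨j, n⟩, hj, rfl⟩ k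
    obtain ⟨n, rfl⟩ : ∃ l, n = l + m := ⟨n - m, by ring⟩
    have e : dsc s L (i, m) = _ := zero_add m ▸ dsc_add i 0 m
    rw [dsc_add j n m, e, dist_add_right] at k
    obtain ⟨a1, -, a2⟩ := base_one hb hi
    obtain ⟨b1, -, b2⟩ := base_one hb hj
    have k1 := Complex.abs_re_le_norm ((dsc s L (i, 0)).1 - (dsc s L (j, n)).1)
    rw [← Complex.dist_eq, Complex.sub_re, re_eq, re_eq] at k1
    have k2 : dist (dsc s L (i, 0)).1 (dsc s L (j, n)).1 <
        ev s (get L (i, 0)).r + ev s (get L (j, 0)).r := k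
    obtain ⟨k3, k4⟩ := abs_le.1 k1
    simp only [Int.cast_zero, add_zero] at k3 k4 a1 b1 a2 b2
    have n1 : (n : ℝ) < (2 : ℤ) := by push_cast; linarith [a1.2, b1.1, a2.2, b2.2]
    have n2 : ((-2 : ℤ) : ℝ) < n := by push_cast; linarith [a1.1, b1.2, a2.2, b2.2]
    rw [Int.cast_lt] at n1 n2
    simp only [base, List.all_eq_true, List.mem_range, Bool.and_eq_true, Bool.or_eq_true,
      decide_eq_true_eq] at hb
    rcases (hb i hi).2 j hj n (by simp; omega) with ⟨rfl, rfl⟩ | g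
    · rw [zero_add]
    · have g' := of_le g
      rw [ev_r2, ev_d2] at g'
      exact absurd (le_of_sq_le_sq g' dist_nonneg) (not_le.2 k2)

lemma okT_cov {a b c : Vx} (H : okT s L a b c = true) :
    (dsc s L a).1.re ≤ (dsc s L b).1.re ∧ (dsc s L b).1.re ≤ (dsc s L c).1.re ∧
      ∀ z, Tri (dsc s L a).1 (dsc s L b).1 (dsc s L c).1 z → Cov (All s L) z := by
  simp only [okT, List.all_eq_true, List.mem_range, Bool.and_eq_true, Bool.or_eq_true,
    decide_eq_true_eq] at H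
  obtain ⟨⟨⟨⟨⟨⟨⟨⟨⟨⟨ha, hb'⟩, hc⟩, t1⟩, t2⟩, t3⟩, o1⟩, o2⟩, o3⟩, o4⟩, he⟩ := H
  have t : ∀ {u v : Vx}, u.1 < L.length → v.1 < L.length →
      d2 s (get L u) (get L v) = r2 s (get L u) (get L v) → Tan (dsc s L u) (dsc s L v) := by
    intro u v hu hv k
    have k' := congrArg (ev s) k
    rw [ev_d2, ev_r2] at k'
    exact (pow_left_inj₀ dist_nonneg
      (add_pos (base_one hb hu).2.2.1 (base_one hb hv).2.2.1).le two_ne_zero).1 k'
  have p1 : -1 ≤ (dsc s L a).1.re := by simpa [ev_rat, dsc, C.cen] using of_le o1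
  have p2 : (dsc s L a).1.re ≤ (dsc s L b).1.re := of_le o2
  have p3 : (dsc s L b).1.re ≤ (dsc s L c).1.re := of_le o3
  have p4 : (dsc s L c).1.re ≤ 2 := by simpa [ev_rat, dsc, C.cen] using of_le o4
  refine ⟨p2, p3, fun z hz => ⟨_, ⟨a, ha, rfl⟩, _, ⟨b, hb', rfl⟩, _, ⟨c, hc, rfl⟩, t ha hb' t1,
    t hb' hc t2, t hc ha t3, hz, ?_⟩⟩
  rintro _ ⟨⟨j, n⟩, hj, rfl⟩ hT
  obtain ⟨q1, q2⟩ := hT.re_mem (convex_Icc (dsc s L a).1.re (dsc s L c).1.re)
    ⟨le_rfl, p2.trans p3⟩ ⟨p2, p3⟩ ⟨p2.trans p3, le_rfl⟩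
  have e := re_eq (s := s) (L := L) (j, n)
  obtain ⟨b1, -⟩ := base_one hb hj
  simp only at e b1
  have n1 : (n : ℝ) ≤ (2 : ℤ) := by push_cast; linarith [b1.1]
  have n2 : ((-2 : ℤ) : ℝ) ≤ n := by push_cast; linarith [b1.2]
  rw [Int.cast_le] at n1 n2
  obtain ⟨s1, s2, s3⟩ := tri_sign hT
  rcases he j hj n (by simp; omega) with ((g | g) | g) | g
  · exact Or.inl (g ▸ rfl)
  · exact Or.inr (Or.inl (g ▸ rfl))
  · exact Or.inr (Or.inr (g ▸ rfl))
  · exfalso
    simp only [away, Bool.or_eq_true] at g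
    rcases g with (((g | g) | g) | g) | g
    · exact (of_lt g).not_ge q1
    · exact (of_lt g).not_ge q2
    all_goals
      have g' := of_lt g
      rw [ev_mul, ev_cr, ev_cr, ev_rat, Rat.cast_zero] at g'
      first | exact g'.not_ge s1 | exact g'.not_ge s2 | exact g'.not_ge s3

end

/-- The meaning of a list of edges. -/
def Done (s : ℕ) (L : List C) (h : ℝ) (E : List (ℕ × Vx)) : Prop :=
  ∀ a b : Vx, edge a b ∈ E → Up (All s L) h (dsc s L a).1 (dsc s L b).1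

lemma Done.cons {h : ℝ} {E : List (ℕ × Vx)} (H : Done s L h E) {a b : Vx}
    (k : Up (All s L) h (dsc s L a).1 (dsc s L b).1) : Done s L h (edge a b :: E) := by
  rintro ⟨i, m⟩ ⟨j, n⟩ g
  rcases List.mem_cons.1 g with g | g
  · simp only [edge, Prod.mk.injEq] at g
    obtain ⟨rfl, rfl, g⟩ := g
    have := k.shift (int_per (m - a.2)) (by simp)
    have e1 := congrArg Prod.fst (dsc_add (s := s) (L := L) a.1 a.2 (m - a.2))
    have e2 := congrArg Prod.fst (dsc_add (s := s) (L := L) b.1 b.2 (m - a.2))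
    rw [show a.2 + (m - a.2) = m by ring] at e1
    rw [show b.2 + (m - a.2) = n by linarith] at e2
    rwa [e1, e2]
  · exact H _ _ g

lemma Done.has {h : ℝ} {E : List (ℕ × Vx)} (H : Done s L h E) {a b : Vx}
    (k : has L E a b = true) : Up (All s L) h (dsc s L a).1 (dsc s L b).1 := by
  simp only [H81.has, Bool.or_eq_true, decide_eq_true_eq] at k
  exact k.elim (H a b) fun e g => absurd (congrArg (ev s) e) g.ne

lemma run_done {h : K} (hb : base s L h = true) {y : ℝ} : ∀ (T : List (Vx × Vx × Vx))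
    (E : List (ℕ × Vx)), run s L T E = true → Done s L y E → ∀ n : ℤ,
      Up (All s L) y (dsc s L (0, n)).1 (dsc s L (0, n + 1)).1
  | [], E, H, hE, n => hE _ _ (by simpa [run, edge] using H)
  | t :: T, E, H, hE, n => by
    simp only [run, Bool.and_eq_true, Bool.or_eq_true] at H
    obtain ⟨o1, o2, o3⟩ := okT_cov hb H.1
    rcases H.2 with ⟨⟨⟨g, g1⟩, g2⟩, g3⟩ | ⟨⟨g, g1⟩, g3⟩
    · have g' := of_lt g
      rw [ev_cr, ev_rat, Rat.cast_zero] at g'
      exact run_done hb T _ g3 (hE.cons (up_above o1 o2 g' o3 (hE.has g1) (hE.has g2))) n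
    · have g' := of_pos g
      rw [ev_cr] at g'
      have := up_below o1 o2 g' o3 (hE.has g1)
      exact run_done hb T _ g3 ((hE.cons this.2).cons this.1) n

/-- The whole test. -/
def check (s : ℕ) (x h : K) (L : List C) (T : List (Vx × Vx × Vx)) : Bool :=
  pos s h && base s (⟨⟨0, 0⟩, ⟨0, 0⟩, ⟨1 / 2, 0⟩⟩ :: ⟨x, h, ⟨1 / 2, 0⟩⟩ :: L) h &&
    run s (⟨⟨0, 0⟩, ⟨0, 0⟩, ⟨1 / 2, 0⟩⟩ :: ⟨x, h, ⟨1 / 2, 0⟩⟩ :: L) T [(1, 1, 1)]

theorem lay_of_check {x h : K} {T : List (Vx × Vx × Vx)} (H : check s x h L T = true) :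
    Lay ⟨ev s x, ev s h⟩ := by
  simp only [check, Bool.and_eq_true] at H
  obtain ⟨⟨h0, hb⟩, hr⟩ := H
  set M : List C := ⟨⟨0, 0⟩, ⟨0, 0⟩, ⟨1 / 2, 0⟩⟩ :: ⟨x, h, ⟨1 / 2, 0⟩⟩ :: L with hM
  set σ : ℂ := ⟨ev s x, ev s h⟩ with hσ
  have h0' : 0 < σ.im := of_pos h0
  have e0 : ∀ n : ℤ, dsc s M (0, n) = ((0 : ℂ) + n, (1 / 2 : ℝ)) := fun n =>
    Prod.ext (Complex.ext (by simp [hM, dsc, get, C.cen, ev_add, ev_rat])
      (by simp [hM, dsc, get, C.cen, ev_rat])) (by simp [hM, dsc, get, ev_rat])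
  have e1 : ∀ n : ℤ, dsc s M (1, n) = (σ + n, (1 / 2 : ℝ)) := fun n =>
    Prod.ext (Complex.ext (by simp [hM, hσ, dsc, get, C.cen, ev_add, ev_rat])
      (by simp [hM, hσ, dsc, get, C.cen])) (by simp [hM, dsc, get, ev_rat])
  have m0 : ∀ n : ℤ, ((0 : ℂ) + n, (1 / 2 : ℝ)) ∈ All s M := fun n =>
    ⟨(0, n), by simp [hM], (e0 n).symm⟩
  have m1 : ∀ n : ℤ, (σ + n, (1 / 2 : ℝ)) ∈ All s M := fun n =>
    ⟨(1, n), by simp [hM], (e1 n).symm⟩
  have top : Done s M σ.im [(1, 1, 1)] := by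
    refine Done.cons (E := []) (fun _ _ k => by simp at k) (a := (1, 0)) (b := (1, 1)) ?_
    intro _ z _ _ z3 z4 z5
    rw [e1, e1] at z3
    obtain ⟨k, hk, -, k2⟩ := wall_row m1 z (z4.antisymm (by simpa [cr] using z3))
    exact absurd k2 (z5 k hk).not_ge
  have hS : Strip (All s M) 0 (0 + σ.im) := by
    refine ⟨base_pk hb, ?_, fun z z1 z2 z3 => ?_⟩
    · rintro _ ⟨v, hv, rfl⟩
      rw [zero_add]
      exact (base_one hb hv).2.1
    · have := run_done hb T _ hr top ⌊z.re⌋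
      rw [e0, e0] at this
      exact this (by simp) z (by simpa using Int.floor_le _)
        (by simpa using (Int.lt_floor_add_one _).le) (by simpa [cr] using z1) (by simpa using z2) z3
  have hG := hS.per h0' (wall_row (v := 0) fun n => ⟨m0 n, mem_congr (m1 n) (by ring)⟩)
  have h4 : ((0 : ℂ), (1 / 2 : ℝ)) ∈ per σ (All s M) := subset_per _ _ (by simpa using m0 0)
  exact ⟨h0', _, hG, Per.per (by simpa using int_per (s := s) (L := M) 1) _, h4,
    by simpa using (mem_per _ _ _).2 h4⟩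

end Pool.Agent.MP_3b6db3_gt.H81
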