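import Pool.Agent.MP_3b6db3_gt.H81.Up
import Pool.Agent.MP_3b6db3_gt.H5.Pack

/-!
The cone spanned by layers, and rotation into the cone.
-/

open Set Complex

namespace Pool.Agent.MP_3b6db3_gt.H81

open Pool.Agent.MP_3b6db3_gt.H5

/-- A layer up to a rational affine map, or a rational number. -/
def QL (z : ℂ) : Prop := (∃ n ρ : ℚ, 0 < n ∧ Lay (n * z + ρ)) ∨ ∃ ρ : ℚ, z = ρ

lemma lay_mul {σ : ℂ} (H : Lay σ) : ∀ k : ℕ, 0 < k → Lay (k * σ)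
  | 1, _ => by simpa using H
  | k + 2, _ => by
    convert (lay_mul H (k + 1) k.succ_pos).add H using 1
    push_cast
    ring

lemma QL.of {σ : ℂ} (H : Lay σ) : QL σ := Or.inl ⟨1, 0, one_pos, by simpa using H⟩

lemma QL.rat (ρ : ℚ) : QL ρ := Or.inr ⟨ρ, rfl⟩

lemma QL.smul {z : ℂ} (H : QL z) {c : ℚ} (hc : 0 ≤ c) : QL (c * z) := by
  rcases hc.eq_or_lt with rfl | hc
  · exact Or.inr ⟨0, by simp⟩
  rcases H with ⟨n, ρ, hn, H⟩ | ⟨ρ, rfl⟩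
  · have : (c : ℂ) ≠ 0 := by exact_mod_cast hc.ne'
    refine Or.inl ⟨n / c, ρ, div_pos hn hc, ?_⟩
    convert H using 2
    push_cast
    field_simp
  · exact Or.inr ⟨c * ρ, by push_cast; rfl⟩

lemma QL.add {z w : ℂ} (H : QL z) (H' : QL w) : QL (z + w) := by
  rcases H with ⟨n, ρ, hn, H⟩ | ⟨ρ, rfl⟩ <;> rcases H' with ⟨m, η, hm, H'⟩ | ⟨η, rfl⟩
  · obtain ⟨a, ha⟩ := Int.eq_ofNat_of_zero_le (Rat.num_pos.2 hn).le
    obtain ⟨b, hb⟩ := Int.eq_ofNat_of_zero_le (Rat.num_pos.2 hm).le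
    have a0 : 0 < a := by have := Rat.num_pos.2 hn; omega
    have b0 : 0 < b := by have := Rat.num_pos.2 hm; omega
    have e1 : (n : ℂ) * n.den = a := by exact_mod_cast ha ▸ n.mul_den_eq_num
    have e2 : (m : ℂ) * m.den = b := by exact_mod_cast hb ▸ m.mul_den_eq_num
    refine Or.inl ⟨a * b, b * n.den * ρ + a * m.den * η, by positivity, ?_⟩
    convert (lay_mul H (b * n.den) (Nat.mul_pos b0 n.den_pos)).add
      (lay_mul H' (a * m.den) (Nat.mul_pos a0 m.den_pos)) using 1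
    push_cast
    linear_combination (-b * z) * e1 - a * w * e2
  · exact Or.inl ⟨n, ρ - n * η, hn, by convert H using 1; push_cast; ring⟩
  · exact Or.inl ⟨m, η - m * ρ, hm, by convert H' using 1; push_cast; ring⟩
  · exact Or.inr ⟨ρ + η, by push_cast; rfl⟩

lemma QL.packable {z : ℂ} (H : QL z) (h0 : 0 < z.im) {a b c d : ℚ} (h : 0 < a * d - b * c) :
    Packable ((a * z + b) / (c * z + d)) := by
  rcases H with ⟨n, ρ, hn, H⟩ | ⟨ρ, rfl⟩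
  · have := H.packable (a := a) (b := b * n - a * ρ) (c := c) (d := d * n - c * ρ) (by nlinarith)
    have hn' : (n : ℂ) ≠ 0 := by exact_mod_cast hn.ne'
    rw [← mul_div_mul_left _ _ hn']
    convert this using 2 <;> push_cast <;> ring
  · simp at h0

section

variable {r : ℝ} {u₀ u₁ v₀ v₁ : ℚ}

lemma cone (h1 : QL I) (h2 : QL (r * I)) (h3 : Lay ⟨u₀ + u₁ * r, v₀ + v₁ * r⟩) (hu : u₁ ≠ 0) :
    ∃ C : ℚ, ∀ X₀ X₁ Y₀ Y₁ : ℚ, C * |X₁| ≤ Y₀ → C * |X₁| ≤ Y₁ →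
      QL ⟨X₀ + X₁ * r, Y₀ + Y₁ * r⟩ := by
  have hu' := abs_pos.2 hu
  have key : ∀ u₀ u₁ : ℚ, Lay ⟨u₀ + u₁ * r, v₀ + v₁ * r⟩ → ∀ X₀ c Y₀ Y₁ : ℚ, 0 ≤ c →
      (|v₀| + |v₁|) * c ≤ Y₀ → (|v₀| + |v₁|) * c ≤ Y₁ →
      QL ⟨X₀ + (c * u₁ : ℚ) * r, Y₀ + Y₁ * r⟩ := by
    intro u₀ u₁ H X₀ c Y₀ Y₁ hc k0 k1
    have a0 : 0 ≤ Y₀ - c * v₀ := by nlinarith [le_abs_self v₀, abs_nonneg v₁]
    have a1 : 0 ≤ Y₁ - c * v₁ := by nlinarith [le_abs_self v₁, abs_nonneg v₀]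
    convert (((QL.of H).smul hc).add (h1.smul a0)).add ((h2.smul a1).add (QL.rat (X₀ - c * u₀)))
      using 1
    exact Complex.ext (by simp; ring) (by simp; ring)
  refine ⟨(|v₀| + |v₁|) / |u₁|, fun X₀ X₁ Y₀ Y₁ k0 k1 => ?_⟩
  rw [div_mul_eq_mul_div, mul_div_assoc, ← abs_div] at k0 k1
  rcases le_total 0 (X₁ / u₁) with g | g
  · rw [abs_of_nonneg g] at k0 k1
    have := key u₀ u₁ h3 X₀ _ Y₀ Y₁ g k0 k1
    rwa [div_mul_cancel₀ _ hu] at this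
  · rw [abs_of_nonpos g] at k0 k1
    have := key (-u₀) (-u₁) (by convert lay_mir h3 using 1; simp [mir]; ring) X₀ _ Y₀ Y₁
      (neg_nonneg.2 g) k0 k1
    rwa [neg_mul_neg, div_mul_cancel₀ _ hu] at this

lemma root {s x y₀ y₁ : ℝ} (hr : 0 < r) (hs : r * r = s) (hx : x ≠ 0) (hy : 0 < y₀ + y₁ * r) :
    ∃ p : ℝ, x * p ^ 2 - 2 * y₀ * y₁ * p - x * (s * x ^ 2 + y₀ ^ 2 + s * y₁ ^ 2) = 0 ∧
      0 < y₀ * p ^ 2 + 2 * s * x * y₁ * p + y₀ * (s * x ^ 2 + y₀ ^ 2 - s * y₁ ^ 2) ∧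
      0 < y₁ * p ^ 2 + 2 * x * y₀ * p + y₁ * (s * x ^ 2 - y₀ ^ 2 + s * y₁ ^ 2) := by
  have x2 : 0 < x ^ 2 := by positivity
  have s0 : 0 < s := hs ▸ mul_pos hr hr
  obtain ⟨w, w0, hw⟩ : ∃ w : ℝ, 0 ≤ w ∧
      w * w = (y₀ * y₁) ^ 2 + x ^ 2 * (s * x ^ 2 + y₀ ^ 2 + s * y₁ ^ 2) :=
    ⟨_, Real.sqrt_nonneg _, Real.mul_self_sqrt (by positivity)⟩
  obtain ⟨q, hq⟩ : ∃ q : ℝ, x ^ 2 * q = y₀ * y₁ + w := ⟨(y₀ * y₁ + w) / x ^ 2, by field_simp⟩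
  have f : x ^ 2 * q ^ 2 - 2 * y₀ * y₁ * q - (s * x ^ 2 + y₀ ^ 2 + s * y₁ ^ 2) = 0 :=
    mul_left_cancel₀ x2.ne' (by linear_combination (x ^ 2 * q - y₀ * y₁ + w) * hq + hw)
  have qr : r < q := not_le.1 fun g => by
    have e : (r - q) * (x ^ 2 * (q + r) - 2 * y₀ * y₁) = -(y₀ + y₁ * r) ^ 2 := by
      linear_combination -f + (x ^ 2 + y₁ ^ 2) * hs
    have g1 : 0 ≤ x ^ 2 * (q + r) - 2 * y₀ * y₁ := by nlinarith
    nlinarith [mul_nonneg (sub_nonneg.2 g) g1, pow_pos hy 2]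
  have q0 := hr.trans qr
  have q2 : 0 < q ^ 2 - s := by nlinarith
  have e1 : 2 * q * ((y₁ * q + y₀) * (y₀ * q + s * y₁)) =
      (q ^ 2 - s) * (x ^ 2 * (q ^ 2 + s) + (y₀ ^ 2 + s * y₁ ^ 2)) := by
    linear_combination (-(q ^ 2 + s)) * f
  have e2 : 0 < (y₁ * q + y₀) * (y₀ * q + s * y₁) :=
    (mul_pos_iff_of_pos_left (mul_pos two_pos q0)).1 (by rw [e1]; exact mul_pos q2 (by positivity))
  have e3 : r * (y₁ * q + y₀) + (y₀ * q + s * y₁) = (y₀ + y₁ * r) * (q + r) := by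
    linear_combination (-y₁) * hs
  have e4 : 0 < y₁ * q + y₀ ∧ 0 < y₀ * q + s * y₁ := by
    refine (pos_and_pos_or_neg_and_neg_of_mul_pos e2).resolve_right fun g => ?_
    nlinarith [mul_pos hy (add_pos q0 hr), mul_pos hr (neg_pos.2 g.1), g.2]
  refine ⟨x * q, by linear_combination x * f, ?_, ?_⟩
  · exact (mul_pos (show 0 < 2 * (y₀ ^ 2 + s * x ^ 2) by positivity) e4.1).trans_eq
      (by linear_combination (-y₀) * f)
  · exact (mul_pos (show 0 < 2 * (x ^ 2 + y₁ ^ 2) by positivity) e4.2).trans_eq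
      (by linear_combination (-y₁) * f)

theorem all_of {s : ℚ} (hr : 0 < r) (hs : r * r = s) (h1 : QL I) (h2 : QL (r * I))
    (h3 : Lay ⟨u₀ + u₁ * r, v₀ + v₁ * r⟩) (hu : u₁ ≠ 0) (x₀ x₁ y₀ y₁ : ℚ)
    (hy : 0 < y₀ + y₁ * r) : Packable ⟨x₀ + x₁ * r, y₀ + y₁ * r⟩ := by
  obtain ⟨C, hC⟩ := cone h1 h2 h3 hu
  have s0 : (0 : ℝ) < s := hs ▸ mul_pos hr hr
  have main : ∀ p : ℚ,
      C * |-x₁ * (p ^ 2 + s * x₁ ^ 2 + y₀ ^ 2 + s * y₁ ^ 2) - p * (2 * y₀ * y₁ - 2 * p * x₁)| <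
        y₀ * p ^ 2 + 2 * s * x₁ * y₁ * p + y₀ * (s * x₁ ^ 2 + y₀ ^ 2 - s * y₁ ^ 2) →
      C * |-x₁ * (p ^ 2 + s * x₁ ^ 2 + y₀ ^ 2 + s * y₁ ^ 2) - p * (2 * y₀ * y₁ - 2 * p * x₁)| <
        y₁ * p ^ 2 + 2 * x₁ * y₀ * p + y₁ * (s * x₁ ^ 2 - y₀ ^ 2 + s * y₁ ^ 2) →
      0 < y₁ * p ^ 2 + 2 * x₁ * y₀ * p + y₁ * (s * x₁ ^ 2 - y₀ ^ 2 + s * y₁ ^ 2) →
      0 < y₀ * p ^ 2 + 2 * s * x₁ * y₁ * p + y₀ * (s * x₁ ^ 2 + y₀ ^ 2 - s * y₁ ^ 2) →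
      Packable ⟨x₀ + x₁ * r, y₀ + y₁ * r⟩ := by
    intro p k0 k1 k2 k3
    obtain ⟨a₀, ha₀⟩ : ∃ a : ℚ, a = p ^ 2 + s * x₁ ^ 2 + y₀ ^ 2 + s * y₁ ^ 2 := ⟨_, rfl⟩
    obtain ⟨a₁, ha₁⟩ : ∃ a : ℚ, a = 2 * y₀ * y₁ - 2 * p * x₁ := ⟨_, rfl⟩
    rw [← ha₀, ← ha₁] at k0 k1
    have H := hC (p * a₀ + s * x₁ * a₁) _ _ _ k0.le k1.le
    have b₀ : (a₀ : ℝ) = p ^ 2 + s * x₁ ^ 2 + y₀ ^ 2 + s * y₁ ^ 2 := by exact_mod_cast ha₀
    have b₁ : (a₁ : ℝ) = 2 * y₀ * y₁ - 2 * p * x₁ := by exact_mod_cast ha₁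
    have eA : a₀ + a₁ * r = (p - x₁ * r) ^ 2 + (y₀ + y₁ * r) ^ 2 := by
      linear_combination b₀ + r * b₁ - (x₁ ^ 2 + y₁ ^ 2) * hs
    have eX : ((p * a₀ + s * x₁ * a₁ : ℚ) : ℝ) + (-x₁ * a₀ - p * a₁ : ℚ) * r =
        (p - x₁ * r) * (a₀ - a₁ * r) := by
      push_cast
      linear_combination (-x₁ * a₁) * hs
    have eY : ((y₀ * p ^ 2 + 2 * s * x₁ * y₁ * p + y₀ * (s * x₁ ^ 2 + y₀ ^ 2 - s * y₁ ^ 2) : ℚ) : ℝ) +
        (y₁ * p ^ 2 + 2 * x₁ * y₀ * p + y₁ * (s * x₁ ^ 2 - y₀ ^ 2 + s * y₁ ^ 2) : ℚ) * r =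
        (y₀ + y₁ * r) * (a₀ - a₁ * r) := by
      push_cast
      linear_combination (-y₀ - y₁ * r) * b₀ + (y₀ * r + y₁ * s) * b₁ + y₁ * a₁ * hs
    have hB : 0 < a₀ - a₁ * r := by
      refine (mul_pos_iff_of_pos_left hy).1 ?_
      rw [← eY]
      exact add_pos (by exact_mod_cast k3) (mul_pos (by exact_mod_cast k2) hr)
    have hA : 0 < a₀ + a₁ * r := by rw [eA]; positivity
    have eN : ((a₀ ^ 2 - s * a₁ ^ 2 : ℚ) : ℝ) = (a₀ + a₁ * r) * (a₀ - a₁ * r) := by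
      push_cast
      linear_combination (a₁ ^ 2 : ℝ) * hs
    rw [eX, eY] at H
    have hN : 0 < a₀ ^ 2 - s * a₁ ^ 2 := by exact_mod_cast eN ▸ mul_pos hA hB
    have := H.packable (mul_pos hy hB) (a := p + x₀) (b := -(a₀ ^ 2 - s * a₁ ^ 2)) (c := 1) (d := 0)
      (by linarith)
    convert this using 1
    rw [eq_div_iff fun e => (mul_pos hy hB).ne' (by simpa using congrArg Complex.im e)]
    refine Complex.ext ?_ ?_
    · simp only [mul_re, add_re, add_im, mul_im, ratCast_re, ratCast_im, Rat.cast_neg, neg_re, eN,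
        Rat.cast_add, Rat.cast_one, Rat.cast_zero, one_re, one_im, zero_re, zero_im]
      linear_combination (a₀ - a₁ * r) * eA
    · simp only [mul_re, add_re, add_im, mul_im, ratCast_re, ratCast_im, Rat.cast_neg, neg_im,
        Rat.cast_add, Rat.cast_one, Rat.cast_zero, one_re, one_im, zero_re, zero_im]
      ring
  by_cases hx : x₁ = 0
  · subst hx
    by_cases g : 0 ≤ y₀ ∧ 0 ≤ y₁
    · simpa using (hC x₀ 0 y₀ y₁ (by simpa using g.1) (by simpa using g.2)).packable hy (a := 1)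
        (b := 0) (c := 0) (d := 1) (by simp)
    · have e : (y₀ : ℝ) ^ 2 - s * y₁ ^ 2 = (y₀ + y₁ * r) * (y₀ - y₁ * r) := by
        linear_combination (y₁ ^ 2 : ℝ) * hs
      have k : 0 < y₀ * (y₀ ^ 2 - s * y₁ ^ 2) ∧ 0 < y₁ * (-y₀ ^ 2 + s * y₁ ^ 2) := by
        have k' : (0 : ℝ) < y₀ * (y₀ ^ 2 - s * y₁ ^ 2) ∧ (0 : ℝ) < -y₁ * (y₀ ^ 2 - s * y₁ ^ 2) := by
          rw [e]
          rcases not_and_or.1 g with g | g
          · have g0 : (y₀ : ℝ) < 0 := by exact_mod_cast not_le.1 g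
            have g1 : 0 < y₁ * r := by linarith
            have g2 : (0 : ℝ) < y₁ := (mul_pos_iff_of_pos_right hr).1 g1
            have g3 := mul_neg_of_pos_of_neg hy (show y₀ - y₁ * r < 0 by linarith)
            exact ⟨mul_pos_of_neg_of_neg g0 g3, mul_pos_of_neg_of_neg (neg_lt_zero.2 g2) g3⟩
          · have g0 : (y₁ : ℝ) < 0 := by exact_mod_cast not_le.1 g
            have g1 := mul_neg_of_neg_of_pos g0 hr
            have g3 := mul_pos hy (show 0 < y₀ - y₁ * r by linarith)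
            exact ⟨mul_pos (by linarith) g3, mul_pos (neg_pos.2 g0) g3⟩
        exact ⟨by exact_mod_cast k'.1, by
          have : 0 < -y₁ * (y₀ ^ 2 - s * y₁ ^ 2) := by exact_mod_cast k'.2
          linarith⟩
      exact main 0 (by simpa using k.1) (by simpa using k.2) (by simpa using k.2)
        (by simpa using k.1)
  · obtain ⟨p, p1, p2, p3⟩ := root (y₀ := y₀) (y₁ := y₁) hr hs
      (show (x₁ : ℝ) ≠ 0 by exact_mod_cast hx) hy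
    let F : ℝ → ℝ := fun p => C *
      |-x₁ * (p ^ 2 + s * x₁ ^ 2 + y₀ ^ 2 + s * y₁ ^ 2) - p * (2 * y₀ * y₁ - 2 * p * x₁)|
    let G : ℝ → ℝ := fun p =>
      y₀ * p ^ 2 + 2 * s * x₁ * y₁ * p + y₀ * (s * x₁ ^ 2 + y₀ ^ 2 - s * y₁ ^ 2)
    let H : ℝ → ℝ := fun p =>
      y₁ * p ^ 2 + 2 * x₁ * y₀ * p + y₁ * (s * x₁ ^ 2 - y₀ ^ 2 + s * y₁ ^ 2)
    have F0 : F p = 0 := mul_eq_zero_of_right _ (abs_eq_zero.2 (by linear_combination p1))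
    have cF : Continuous F := by fun_prop
    have cG : Continuous G := by fun_prop
    have cH : Continuous H := by fun_prop
    obtain ⟨t, ⟨t1, t2⟩, t3, t4⟩ := Rat.denseRange_cast.exists_mem_open
      (((isOpen_lt cF cG).inter (isOpen_lt cF cH)).inter
        ((isOpen_lt continuous_const cH).inter (isOpen_lt continuous_const cG)))
      ⟨p, ⟨F0.trans_lt p2, F0.trans_lt p3⟩, p3, p2⟩
    simp only [F, G, H, mem_ofPred_eq] at t1 t2 t3 t4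
    exact main t (by exact_mod_cast t1) (by exact_mod_cast t2) (by exact_mod_cast t3)
      (by exact_mod_cast t4)

end

end Pool.Agent.MP_3b6db3_gt.H81
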