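import Pool.Agent.MP_3b6db3_gt.H81.Check

/-!
Explicit layers.
-/

namespace Pool.Agent.MP_3b6db3_gt.H81

theorem c2 : check 2 ⟨-16 / 85, 48 / 85⟩ ⟨52 / 85, 48 / 85⟩
    [⟨⟨1 / 2, 0⟩, ⟨110 / 391, 24 / 391⟩, ⟨-179 / 391, 160 / 391⟩⟩,
     ⟨⟨-117 / 170, 48 / 85⟩, ⟨38 / 115, 984 / 1955⟩, ⟨-179 / 391, 160 / 391⟩⟩,
     ⟨⟨619 / 1138, 48 / 569⟩, ⟨346 / 569, -64 / 569⟩, ⟨148 / 569, -80 / 569⟩⟩,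
     ⟨⟨-8 / 85, 24 / 85⟩, ⟨26 / 85, 24 / 85⟩, ⟨23 / 170, 8 / 85⟩⟩,
     ⟨⟨25907 / 96730, 23232 / 48365⟩, ⟨178 / 48365, 32752 / 48365⟩, ⟨148 / 569, -80 / 569⟩⟩,
     ⟨⟨69 / 170, 24 / 85⟩, ⟨26 / 85, 24 / 85⟩, ⟨31 / 85, -8 / 85⟩⟩,
     ⟨⟨13675 / 40514, 3552 / 20257⟩, ⟨3514 / 20257, 4480 / 20257⟩, ⟨5392 / 20257, -3456 / 20257⟩⟩,
     ⟨⟨18027 / 432578, 75840 / 216289⟩, ⟨44890 / 216289, 47136 / 216289⟩, ⟨7472 / 216289, -480 / 216289⟩⟩,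
     ⟨⟨-1810599 / 3443690, 670416 / 1721845⟩, ⟨754674 / 1721845, 591536 / 1721845⟩, ⟨5392 / 20257, -3456 / 20257⟩⟩,
     ⟨⟨-8453543 / 36769130, 3935472 / 18384565⟩, ⟨7431378 / 18384565, 6375312 / 18384565⟩, ⟨7472 / 216289, -480 / 216289⟩⟩,
     ⟨⟨9141 / 19582, 1056 / 9791⟩, ⟨3878 / 9791, 896 / 9791⟩, ⟨-4624 / 9791, 3456 / 9791⟩⟩,
     ⟨⟨7435 / 347522, 68160 / 173761⟩, ⟨39610 / 173761, 41952 / 173761⟩, ⟨6704 / 173761, -480 / 173761⟩⟩,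
     ⟨⟨-6192327 / 29539370, 2546928 / 14769685⟩, ⟨5668722 / 14769685, 4774608 / 14769685⟩, ⟨6704 / 173761, -480 / 173761⟩⟩,
     ⟨⟨574173 / 1664470, 380208 / 832235⟩, ⟨179502 / 832235, 393808 / 832235⟩, ⟨-4624 / 9791, 3456 / 9791⟩⟩,
     ⟨⟨1213 / 22702, 4230 / 11351⟩, ⟨1862 / 11351, 2880 / 11351⟩, ⟨400 / 11351, -186 / 11351⟩⟩,
     ⟨⟨-466337 / 1929670, 185298 / 964835⟩, ⟨431982 / 964835, 300048 / 964835⟩, ⟨400 / 11351, -186 / 11351⟩⟩]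
    [((1, 0), (3, 1), (1, 1)), ((1, 0), (6, 0), (3, 1)), ((3, 0), (5, 0), (1, 0)),
     ((6, 0), (10, 1), (3, 1)), ((1, 0), (7, 0), (6, 0)), ((10, 0), (11, 0), (3, 0)),
     ((6, 0), (15, 0), (10, 1)), ((11, 0), (3, 0), (5, 0)), ((10, 0), (17, 0), (11, 0)),
     ((15, 0), (10, 1), (17, 1)), ((7, 0), (6, 0), (15, 0)), ((5, 0), (1, 0), (7, 0)),
     ((17, 0), (14, 0), (11, 0)), ((15, 0), (17, 1), (14, 1)), ((14, 0), (11, 0), (5, 0)),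
     ((7, 0), (15, 0), (14, 1)), ((7, 0), (14, 1), (5, 1)), ((5, 0), (13, 0), (7, 0)),
     ((13, 0), (12, 0), (7, 0)), ((5, 0), (9, 0), (13, 0)), ((13, 0), (16, 0), (12, 0)),
     ((9, 0), (13, 0), (16, 0)), ((7, 0), (0, 1), (5, 1)), ((12, 0), (4, 0), (7, 0)),
     ((16, 0), (8, 0), (12, 0)), ((9, 0), (16, 0), (8, 0)), ((5, 0), (2, 0), (9, 0)),
     ((8, 0), (12, 0), (4, 0)), ((2, 0), (9, 0), (8, 0)), ((4, 0), (7, 0), (0, 1)),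
     ((2, 0), (8, 0), (4, 0)), ((0, 0), (5, 0), (2, 0)), ((2, 0), (4, 0), (0, 1)),
     ((0, 0), (2, 0), (0, 1))] = true := by
  decide +kernel

theorem c3 : check 3 ⟨80 / 121, -6 / 121⟩ ⟨138 / 121, 32 / 121⟩
    [⟨⟨1 / 2, 0⟩, ⟨3 / 8, 0⟩, ⟨1 / 8, 0⟩⟩,
     ⟨⟨39 / 242, -6 / 121⟩, ⟨741 / 968, 32 / 121⟩, ⟨1 / 8, 0⟩⟩,
     ⟨⟨21 / 23, -3 / 23⟩, ⟨9 / 23, 2 / 23⟩, ⟨-15 / 46, 6 / 23⟩⟩,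
     ⟨⟨40 / 121, -3 / 121⟩, ⟨69 / 121, 16 / 121⟩, ⟨43 / 242, 12 / 121⟩⟩,
     ⟨⟨2082 / 2783, 225 / 2783⟩, ⟨2085 / 2783, 494 / 2783⟩, ⟨-15 / 46, 6 / 23⟩⟩,
     ⟨⟨237 / 188, -39 / 188⟩, ⟨24 / 47, 2 / 47⟩, ⟨33 / 188, -9 / 188⟩⟩,
     ⟨⟨9111 / 22748, 3591 / 22748⟩, ⟨3582 / 5687, 1262 / 5687⟩, ⟨33 / 188, -9 / 188⟩⟩,
     ⟨⟨201 / 242, -3 / 121⟩, ⟨69 / 121, 16 / 121⟩, ⟨39 / 121, -12 / 121⟩⟩]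
    [((1, 0), (3, 1), (1, 1)), ((1, 0), (6, 0), (3, 1)), ((3, 0), (5, 0), (1, 0)),
     ((1, 0), (8, 0), (6, 0)), ((5, 0), (1, 0), (8, 0)), ((6, 0), (3, 1), (5, 1)),
     ((8, 0), (9, 0), (6, 0)), ((9, 0), (6, 0), (5, 1)), ((5, 0), (8, 0), (9, 0)),
     ((9, 0), (7, 0), (5, 1)), ((5, 0), (4, 0), (9, 0)), ((4, 0), (9, 0), (7, 0)),
     ((5, 0), (2, 0), (4, 0)), ((7, 0), (0, 1), (5, 1)), ((4, 0), (7, 0), (0, 1)),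
     ((0, 0), (5, 0), (2, 0)), ((2, 0), (4, 0), (0, 1)), ((0, 0), (2, 0), (0, 1))] = true := by
  decide +kernel

theorem c5 : check 5 ⟨1 / 11, 3 / 11⟩ ⟨2 / 11, 6 / 11⟩
    [⟨⟨1 / 2, 0⟩, ⟨-1, 3 / 5⟩, ⟨1, -2 / 5⟩⟩,
     ⟨⟨-9 / 22, 3 / 11⟩, ⟨13 / 11, -3 / 55⟩, ⟨1, -2 / 5⟩⟩,
     ⟨⟨4, -3 / 2⟩, ⟨-4, 2⟩, ⟨-11 / 2, 5 / 2⟩⟩,
     ⟨⟨1 / 22, 3 / 22⟩, ⟨1 / 11, 3 / 11⟩, ⟨2 / 11, 1 / 22⟩⟩,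
     ⟨⟨-43 / 11, 39 / 22⟩, ⟨46 / 11, -16 / 11⟩, ⟨-11 / 2, 5 / 2⟩⟩,
     ⟨⟨6 / 11, 3 / 22⟩, ⟨1 / 11, 3 / 11⟩, ⟨7 / 22, -1 / 22⟩⟩]
    [((1, 0), (3, 1), (1, 1)), ((1, 0), (6, 1), (3, 1)), ((3, 0), (5, 0), (1, 0)),
     ((1, 0), (7, 0), (6, 1)), ((6, 0), (3, 0), (5, 0)), ((5, 0), (1, 0), (7, 0)),
     ((7, 0), (6, 1), (5, 1)), ((5, 0), (4, 0), (7, 0)), ((7, 0), (0, 1), (5, 1)),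
     ((5, 0), (2, 0), (4, 0)), ((4, 0), (7, 0), (0, 1)), ((0, 0), (5, 0), (2, 0)),
     ((2, 0), (4, 0), (0, 1)), ((0, 0), (2, 0), (0, 1))] = true := by
  decide +kernel

theorem c6 : check 6 ⟨-8 / 19, 6 / 19⟩ ⟨27 / 38, 13 / 38⟩
    [⟨⟨1 / 2, 0⟩, ⟨3 / 4, -1 / 8⟩, ⟨-3 / 4, 3 / 8⟩⟩,
     ⟨⟨3 / 38, 6 / 19⟩, ⟨-3 / 76, 71 / 152⟩, ⟨-3 / 4, 3 / 8⟩⟩,
     ⟨⟨9 / 19, 2 / 19⟩, ⟨75 / 76, -15 / 76⟩, ⟨47 / 76, -17 / 76⟩⟩,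
     ⟨⟨-4 / 19, 3 / 19⟩, ⟨27 / 76, 13 / 76⟩, ⟨15 / 76, 3 / 76⟩⟩,
     ⟨⟨2 / 19, 4 / 19⟩, ⟨-21 / 76, 41 / 76⟩, ⟨47 / 76, -17 / 76⟩⟩,
     ⟨⟨89 / 142, 7 / 71⟩, ⟨105 / 284, 45 / 568⟩, ⟨31 / 284, -7 / 568⟩⟩,
     ⟨⟨11 / 38, 3 / 19⟩, ⟨27 / 76, 13 / 76⟩, ⟨23 / 76, -3 / 76⟩⟩,
     ⟨⟨-129 / 2698, 293 / 1349⟩, ⟨1839 / 5396, 2837 / 10792⟩, ⟨31 / 284, -7 / 568⟩⟩]
    [((1, 0), (3, 0), (1, 1)), ((1, 0), (6, 0), (3, 0)), ((3, 0), (5, 1), (1, 1)),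
     ((1, 0), (9, 0), (6, 0)), ((5, 0), (1, 0), (9, 0)), ((6, 0), (8, 0), (3, 0)),
     ((9, 0), (6, 0), (8, 0)), ((8, 0), (3, 0), (5, 1)), ((5, 0), (9, 0), (8, 0)),
     ((8, 0), (7, 0), (5, 1)), ((5, 0), (2, 0), (8, 0)), ((8, 0), (4, 0), (7, 0)),
     ((2, 0), (8, 0), (4, 0)), ((7, 0), (0, 1), (5, 1)), ((4, 0), (7, 0), (0, 1)),
     ((0, 0), (5, 0), (2, 0)), ((2, 0), (4, 0), (0, 1)), ((0, 0), (2, 0), (0, 1))] = true := by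
  decide +kernel

theorem c7 : check 7 ⟨21 / 26, -1 / 26⟩ ⟨18 / 13, 3 / 13⟩
    [⟨⟨1 / 2, 0⟩, ⟨0, 3 / 14⟩, ⟨-1 / 2, 2 / 7⟩⟩,
     ⟨⟨4 / 13, -1 / 26⟩, ⟨18 / 13, 3 / 182⟩, ⟨-1 / 2, 2 / 7⟩⟩,
     ⟨⟨225 / 298, 6 / 149⟩, ⟨84 / 149, 3 / 298⟩, ⟨37 / 298, -1 / 149⟩⟩,
     ⟨⟨-61 / 914, 30 / 457⟩, ⟨246 / 457, 33 / 914⟩, ⟨67 / 914, 12 / 457⟩⟩,
     ⟨⟨2039 / 1937, -305 / 3874⟩, ⟨1590 / 1937, 855 / 3874⟩, ⟨37 / 298, -1 / 149⟩⟩,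
     ⟨⟨5195 / 5941, -1237 / 11882⟩, ⟨5028 / 5941, 2313 / 11882⟩, ⟨67 / 914, 12 / 457⟩⟩,
     ⟨⟨47 / 52, -1 / 52⟩, ⟨9 / 13, 3 / 26⟩, ⟨1 / 4, 1 / 52⟩⟩,
     ⟨⟨2504 / 25937, 1580 / 25937⟩, ⟨13686 / 25937, 4593 / 51874⟩, ⟨3656 / 25937, -842 / 25937⟩⟩,
     ⟨⟨479573 / 674362, -67017 / 674362⟩, ⟨288948 / 337181, 95913 / 674362⟩, ⟨3656 / 25937, -842 / 25937⟩⟩,
     ⟨⟨21 / 52, -1 / 52⟩, ⟨9 / 13, 3 / 26⟩, ⟨1 / 4, -1 / 52⟩⟩,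
     ⟨⟨3848 / 17515, -72 / 3503⟩, ⟨8622 / 17515, 879 / 7006⟩, ⟨-936 / 3503, 2142 / 17515⟩⟩,
     ⟨⟨267767 / 455390, -1631 / 91078⟩, ⟨203184 / 227695, 9591 / 91078⟩, ⟨-936 / 3503, 2142 / 17515⟩⟩]
    [((1, 0), (3, 1), (1, 1)), ((1, 0), (6, 0), (3, 1)), ((3, 0), (7, 0), (1, 0)),
     ((7, 0), (1, 0), (6, 0)), ((3, 0), (10, 0), (7, 0)), ((6, 0), (8, 0), (3, 1)),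
     ((7, 0), (6, 0), (8, 0)), ((10, 0), (13, 0), (7, 0)), ((3, 0), (11, 0), (10, 0)),
     ((13, 0), (7, 0), (8, 0)), ((11, 0), (10, 0), (13, 0)), ((8, 0), (3, 1), (11, 1)),
     ((11, 0), (13, 0), (8, 0)), ((8, 0), (12, 1), (11, 1)), ((11, 0), (2, 0), (8, 0)),
     ((12, 0), (9, 0), (11, 0)), ((8, 0), (5, 1), (12, 1)), ((9, 0), (11, 0), (2, 0)),
     ((5, 0), (12, 0), (9, 0)), ((8, 0), (4, 0), (5, 1)), ((2, 0), (8, 0), (4, 0)),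
     ((5, 0), (9, 0), (2, 0)), ((4, 0), (0, 1), (5, 1)), ((0, 0), (5, 0), (2, 0)),
     ((2, 0), (4, 0), (0, 1)), ((0, 0), (2, 0), (0, 1))] = true := by
  decide +kernel

theorem q7 : check 7 ⟨0, 0⟩ ⟨0, 5 / 9⟩
    [⟨⟨1 / 2, 0⟩, ⟨0, 5 / 18⟩, ⟨7 / 18, 0⟩⟩,
     ⟨⟨13 / 14, 0⟩, ⟨0, 3 / 14⟩, ⟨1 / 14, 0⟩⟩,
     ⟨⟨1 / 14, 0⟩, ⟨0, 3 / 14⟩, ⟨1 / 14, 0⟩⟩,
     ⟨⟨1 / 14, 0⟩, ⟨0, 43 / 126⟩, ⟨1 / 14, 0⟩⟩,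
     ⟨⟨13 / 14, 0⟩, ⟨0, 43 / 126⟩, ⟨1 / 14, 0⟩⟩,
     ⟨⟨0, 0⟩, ⟨0, 5 / 18⟩, ⟨1 / 9, 0⟩⟩]
    [((1, 0), (2, 0), (1, 1)), ((1, 0), (5, 0), (2, 0)), ((2, 0), (6, 0), (1, 1)),
     ((6, 0), (1, 1), (5, 1)), ((6, 0), (7, 1), (5, 1)), ((7, 0), (5, 0), (2, 0)),
     ((2, 0), (6, 0), (7, 1)), ((2, 0), (3, 0), (7, 1)), ((7, 0), (4, 0), (2, 0)),
     ((3, 0), (7, 1), (4, 1)), ((3, 0), (0, 1), (4, 1)), ((2, 0), (3, 0), (0, 1)),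
     ((0, 0), (4, 0), (2, 0)), ((0, 0), (2, 0), (0, 1))] = true := by
  decide +kernel

end Pool.Agent.MP_3b6db3_gt.H81
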