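import Pool.Agent.MP_3b6db3_gt.H81.Cone
import Pool.Agent.MP_3b6db3_gt.H81.Data
import Pool.Agent.MP_3b6db3_gt.H5.Cor

/-!
All moduli in the fields `ℚ(i, √d)`, `d = 2, 3, 5, 6, 7`.
-/

open Complex

namespace Pool.Agent.MP_3b6db3_gt.H81

open Pool.Agent.MP_3b6db3_gt.H5

lemma form {d : ℕ} {τ : ℂ} (h : τ ∈ IntermediateField.adjoin ℚ {I, ((√d : ℝ) : ℂ)}) :
    ∃ x₀ x₁ y₀ y₁ : ℚ, τ = ⟨x₀ + x₁ * √d, y₀ + y₁ * √d⟩ := by
  have hs := Real.mul_self_sqrt (Nat.cast_nonneg (α := ℝ) d)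
  have ha : ∀ x ∈ ({I, ((√d : ℝ) : ℂ)} : Set ℂ), IsAlgebraic ℚ x := by
    rintro x (rfl | rfl)
    · exact IsAlgebraic.of_pow two_pos (by rw [I_sq]; exact isAlgebraic_one.neg)
    · refine IsAlgebraic.of_pow two_pos ?_
      rw [← ofReal_pow, sq, hs]
      exact_mod_cast isAlgebraic_natCast (R := ℚ) (A := ℂ) d
  rw [← IntermediateField.mem_toSubalgebra,
    IntermediateField.adjoin_toSubalgebra_of_isAlgebraic ha] at h
  induction h using Algebra.adjoin_induction with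
  | mem x hx =>
    rcases hx with rfl | rfl
    · exact ⟨0, 0, 1, 0, Complex.ext (by simp) (by simp)⟩
    · exact ⟨0, 1, 0, 0, Complex.ext (by simp) (by simp)⟩
  | algebraMap q => exact ⟨q, 0, 0, 0, Complex.ext (by simp) (by simp)⟩
  | add x y _ _ hx hy =>
    obtain ⟨a, b, c, e, rfl⟩ := hx
    obtain ⟨a', b', c', e', rfl⟩ := hy
    exact ⟨a + a', b + b', c + c', e + e', Complex.ext (by simp; ring) (by simp; ring)⟩
  | mul x y _ _ hx hy =>
    obtain ⟨a, b, c, e, rfl⟩ := hx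
    obtain ⟨a', b', c', e', rfl⟩ := hy
    refine ⟨a * a' + d * b * b' - c * c' - d * e * e', a * b' + b * a' - c * e' - e * c',
      a * c' + d * b * e' + c * a' + d * e * b', a * e' + b * c' + c * b' + e * a',
      Complex.ext ?_ ?_⟩
    · simp only [mul_re]
      push_cast
      linear_combination (b * b' - e * e' : ℝ) * hs
    · simp only [mul_im]
      push_cast
      linear_combination (b * e' + e * b' : ℝ) * hs

lemma ql_of {z : ℂ} {q : ℚ} (hq : 0 < q) (h : Lay (q * z)) : QL z :=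
  Or.inl ⟨q, 0, hq, by simpa using h⟩

lemma ql_I : QL I := ql_of two_pos (by
  simpa using lay_sec (n := 3) (w := 2) (by norm_num) (by
    push_cast; rw [Real.cos_pi_div_three]; norm_num))

lemma ql_sqrt {d : ℕ} (hd : d ∈ ({2, 3, 5, 6, 7} : Set ℕ)) : QL ((√d : ℝ) * I) := by
  by_cases h : d = 7
  · subst h
    refine ql_of (q := 5 / 9) (by norm_num) ?_
    convert lay_of_check q7 using 1
    exact Complex.ext (by simp [K.ev]) (by simp [K.ev])
  · obtain ⟨q, hq, H⟩ := lay_sqrt (d := d) (by simp at hd ⊢; omega)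
    exact ql_of hq (by simpa [mul_assoc] using H)

theorem main {d : ℕ} (hd : d ∈ ({2, 3, 5, 6, 7} : Set ℕ)) {τ : ℂ}
    (h : τ ∈ IntermediateField.adjoin ℚ {I, ((√d : ℝ) : ℂ)}) (h0 : 0 < τ.im) : Packable τ := by
  obtain ⟨x₀, x₁, y₀, y₁, rfl⟩ := form h
  have key : ∀ x y : K, Lay ⟨K.ev d x, K.ev d y⟩ → x.b ≠ 0 →
      Packable ⟨x₀ + x₁ * √d, y₀ + y₁ * √d⟩ := fun x y H hx =>
    all_of (s := d) (Real.sqrt_pos.2 (by simp at hd; norm_cast; omega))
      (by simp) ql_I (ql_sqrt hd) H hx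
      x₀ x₁ y₀ y₁ h0
  rcases hd with rfl | rfl | rfl | rfl | rfl
  exacts [key _ _ (lay_of_check c2) (by norm_num), key _ _ (lay_of_check c3) (by norm_num),
    key _ _ (lay_of_check c5) (by norm_num), key _ _ (lay_of_check c6) (by norm_num),
    key _ _ (lay_of_check c7) (by norm_num)]

end Pool.Agent.MP_3b6db3_gt.H81
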