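import Pool.Agent.MP_3b6db3_gt.H5.Glue

/-!
Covering a strip by triangles, from the top to the bottom. Mirror images of layers.
-/

open Set

namespace Pool.Agent.MP_3b6db3_gt.H81

open Pool.Agent.MP_3b6db3_gt.H5

variable {D : Set Disc} {h : ℝ}

/-- All points above the segment `p q` and below height `h` are covered. -/
def Up (D : Set Disc) (h : ℝ) (p q : ℂ) : Prop :=
  p.re < q.re → ∀ z : ℂ, p.re ≤ z.re → z.re ≤ q.re → 0 ≤ cr p q z → z.im ≤ h → Out D z → Cov D z

lemma sim_per {v : ℂ} (hv : v ∈ Per D) : sim 1 v '' D = D := by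
  rw [← sh_eq]
  ext d
  have := ((Per D).neg_mem hv) d
  rwa [← sub_eq_add_neg] at this

lemma Up.shift {p q v : ℂ} (H : Up D h p q) (hv : v ∈ Per D) (h0 : v.im = 0) :
    Up D h (p + v) (q + v) := by
  intro h1 z h2 h3 h4 h5 h6
  obtain ⟨w, rfl⟩ : ∃ w, z = 1 * w + v := ⟨z - v, by ring⟩
  rw [← sim_per hv, out_sim one_ne_zero] at h6
  simp only [one_mul, Complex.add_re, Complex.add_im, h0, add_zero, add_lt_add_iff_right,
    add_le_add_iff_right, cr, add_sub_add_right_eq_sub] at h1 h2 h3 h4 h5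
  have := (H h1 w h2 h3 h4 h5 h6).sim one_ne_zero v
  rwa [sim_per hv] at this

lemma tri_of {a b c z : ℂ} {w : ℝ} (hw : w = cr a b c) (h0 : w ≠ 0) (h1 : 0 ≤ cr b c z / w)
    (h2 : 0 ≤ cr c a z / w) (h3 : 0 ≤ cr a b z / w) : Tri a b c z := by
  refine ⟨_, _, _, h1, h2, h3, ?_, Complex.ext ?_ ?_⟩
  · field_simp
    simp only [hw, cr]
    ring
  all_goals
    simp only [Complex.add_re, Complex.add_im, Complex.re_ofReal_mul, Complex.im_ofReal_mul]
    field_simp
    simp only [hw, cr]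
    ring

lemma tri_sign {a b c z : ℂ} (H : Tri a b c z) : 0 ≤ cr a b z * cr a b c ∧
    0 ≤ cr b c z * cr a b c ∧ 0 ≤ cr c a z * cr a b c := by
  obtain ⟨l, m, n, h1, h2, h3, e, rfl⟩ := H
  obtain rfl : l = 1 - m - n := by linarith
  have e1 : ∀ {t u : ℝ}, 0 ≤ t → u = t * cr a b c → 0 ≤ u * cr a b c := fun ht hu => by
    rw [hu, mul_assoc]
    exact mul_nonneg ht (mul_self_nonneg _)
  refine ⟨e1 h3 ?_, e1 h1 ?_, e1 h2 ?_⟩ <;>
  simp only [cr, Complex.add_re, Complex.add_im, Complex.re_ofReal_mul, Complex.im_ofReal_mul] <;>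
  ring

lemma re_id (a b c z : ℂ) : (z.re - b.re) * cr a b c =
    cr b c z * (a.re - b.re) + cr a b z * (c.re - b.re) := by
  simp only [cr]
  ring

lemma sum_id (a b c z : ℂ) : cr a b c = cr b c z + cr c a z + cr a b z := by
  simp only [cr]
  ring

lemma cr_swap (a b z : ℂ) : cr b a z = -cr a b z := by
  simp only [cr]
  ring

/-- The middle vertex lies above the long side. -/
lemma up_above {a b c : ℂ} (h1 : a.re ≤ b.re) (h2 : b.re ≤ c.re) (hw : cr a b c < 0)
    (hT : ∀ z, Tri a b c z → Cov D z) (H1 : Up D h a b) (H2 : Up D h b c) : Up D h a c := by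
  intro _ z z1 z2 z3 z4 z5
  have e := re_id a b c z
  have A : z.re ≤ b.re → 0 < cr a b z → Cov D z := fun k1 k2 => by
    refine H1 (h1.lt_of_ne fun e' => ?_) z z1 k1 k2.le z4 z5
    have : z.re = a.re := by linarith
    simp [cr, this, e'] at k2
  have B : b.re ≤ z.re → 0 < cr b c z → Cov D z := fun k1 k2 => by
    refine H2 (h2.lt_of_ne fun e' => ?_) z k1 z2 k2.le z4 z5
    have : z.re = c.re := by linarith
    simp [cr, this, e'] at k2
  rcases lt_or_ge 0 (cr a b z) with k | k <;> rcases lt_or_ge 0 (cr b c z) with k' | k'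
  · exact (le_total z.re b.re).elim (A · k) (B · k')
  · refine A (not_lt.1 fun g => ?_) k
    nlinarith [mul_nonneg_of_nonpos_of_nonpos k' (sub_nonpos.2 h1), mul_nonneg k.le (sub_nonneg.2 h2),
      mul_pos (sub_pos.2 g) (neg_pos.2 hw)]
  · refine B (not_lt.1 fun g => ?_) k'
    nlinarith [mul_nonneg k'.le (sub_nonneg.2 h1), mul_nonneg (neg_nonneg.2 k) (sub_nonneg.2 h2),
      mul_pos (sub_pos.2 g) (neg_pos.2 hw)]
  · exact hT z (tri_of rfl hw.ne (div_nonneg_of_nonpos k' hw.le)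
      (div_nonneg_of_nonpos (by rw [cr_swap]; linarith) hw.le) (div_nonneg_of_nonpos k hw.le))

/-- The middle vertex lies below the long side. -/
lemma up_below {a b c : ℂ} (h1 : a.re ≤ b.re) (h2 : b.re ≤ c.re) (hw : 0 < cr a b c)
    (hT : ∀ z, Tri a b c z → Cov D z) (H : Up D h a c) : Up D h a b ∧ Up D h b c := by
  constructor
  · intro g z z1 z2 z3 z4 z5
    rcases le_or_gt 0 (cr a c z) with k | k
    · exact H (g.trans_le h2) z z1 (z2.trans h2) k z4 z5
    refine hT z (tri_of rfl hw.ne' (div_nonneg (not_lt.1 fun k' => ?_) hw.le)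
      (div_nonneg (by rw [cr_swap]; linarith) hw.le) (div_nonneg z3 hw.le))
    nlinarith [re_id a b c z, mul_pos (neg_pos.2 k') (sub_pos.2 g), mul_nonneg z3 (sub_nonneg.2 h2),
      mul_nonneg (sub_nonneg.2 z2) hw.le]
  · intro g z z1 z2 z3 z4 z5
    rcases le_or_gt 0 (cr a c z) with k | k
    · exact H (h1.trans_lt g) z (h1.trans z1) z2 k z4 z5
    refine hT z (tri_of rfl hw.ne' (div_nonneg z3 hw.le)
      (div_nonneg (by rw [cr_swap]; linarith) hw.le) (div_nonneg (not_lt.1 fun k' => ?_) hw.le))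
    nlinarith [re_id a b c z, mul_pos (neg_pos.2 k') (sub_pos.2 g), mul_nonneg z3 (sub_nonneg.2 h1),
      mul_nonneg (sub_nonneg.2 z1) hw.le]

/-- The reflection in the imaginary axis. -/
def mir (z : ℂ) : ℂ := ⟨-z.re, z.im⟩

lemma mir_mir (z : ℂ) : mir (mir z) = z := by simp [mir]

lemma dist_mir (z w : ℂ) : dist (mir z) (mir w) = dist z w := by
  rw [← pow_left_inj₀ dist_nonneg dist_nonneg two_ne_zero, dist_sq, dist_sq]
  simp only [mir]
  ring

lemma tri_mir {a b c z : ℂ} (H : Tri a b c z) : Tri (mir a) (mir b) (mir c) (mir z) := by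
  obtain ⟨l, m, n, h1, h2, h3, e, rfl⟩ := H
  exact ⟨l, m, n, h1, h2, h3, e, Complex.ext (by simp [mir]; ring) (by simp [mir])⟩

theorem lay_mir {σ : ℂ} (H : Lay σ) : Lay (mir σ) := by
  obtain ⟨h0, D, hD, h1, h2, h3⟩ := H
  let f : Disc → Disc := fun d => (mir d.1, d.2)
  have ff : ∀ d, f (f d) = d := fun d => by simp [f, mir_mir]
  have fi : ∀ {d e}, f d = f e → d = e := fun {d e} k => by rw [← ff d, k, ff]
  refine ⟨h0, {d | f d ∈ D}, ⟨⟨fun d hd => hD.pos (f d) hd, hD.fin.subset ?_, fun d hd e he k =>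
    fi (hD.sep _ hd _ he (by simpa only [f, dist_mir] using k))⟩, fun z hz => ?_⟩, fun d => ?_,
    mem_congr (D := D) (w := mir 0) h2 (Complex.ext (by simp [mir]) (by simp [mir])),
    by simpa [f, mir_mir] using h3⟩
  · rintro _ ⟨d, hd, rfl⟩
    exact ⟨f d, hd, rfl⟩
  · obtain ⟨a, ha, b, hb, c, hc, t1, t2, t3, hT, he⟩ := hD.cov (mir z) fun d hd => by
      have := hz (f d) (by simpa only [mem_ofPred_eq, ff] using hd)
      rwa [← dist_mir, mir_mir] at this
    have t : ∀ {u v : Disc}, Tan u v → Tan (f u) (f v) := fun k => by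
      simpa only [Tan, f, dist_mir] using k
    have m : ∀ {u}, u ∈ D → f u ∈ {d | f d ∈ D} := fun k => by
      simpa only [mem_ofPred_eq, ff] using k
    refine ⟨_, m ha, _, m hb, _, m hc, t t1, t t2, t t3, by simpa only [mir_mir] using tri_mir hT,
      fun d hd k => ?_⟩
    have k' := tri_mir k
    simp only [f, mir_mir] at k'
    rcases he (f d) hd k' with e | e | e <;> simp [← e, ff]
  · have := ((Per D).neg_mem h1) (f d)
    have e : mir (d.1 + 1) = mir d.1 + -1 := Complex.ext (by simp [mir]; ring) (by simp [mir])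
    simpa only [mem_ofPred_eq, f, e] using this

end Pool.Agent.MP_3b6db3_gt.H81
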